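import Pool.Agent.W394.LS.Transfer

/-!
Cayley graphs with respect to the seven generators `a, b^±1, b^±2, (ab)^±1`, `a` an involution.
-/

namespace Pool.Agent.W394.LS

variable {Γ : Type*} [Group Γ]

/-- The seven generators. -/
def gen (a b : Γ) : Fin 7 → Γ := ![a, b, b⁻¹, b * b, b⁻¹ * b⁻¹, a * b, b⁻¹ * a]

/-- The index of the inverse generator. -/
def ginv : Fin 7 → Fin 7 := ![0, 2, 1, 4, 3, 6, 5]

theorem gen_ginv (a b : Γ) (ha : a * a = 1) (i : Fin 7) :
    gen a b (ginv i) = (gen a b i)⁻¹ := by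
  have ha' : a⁻¹ = a := by
    rw [inv_eq_iff_mul_eq_one]; exact ha
  fin_cases i <;> simp [gen, ginv, ha']

/-- Evaluation of words in the seven generators. -/
def ev (a b : Γ) (w : List (Fin 7)) : Γ := (w.map (gen a b)).prod

@[simp] theorem ev_nil (a b : Γ) : ev a b [] = 1 := rfl

@[simp] theorem ev_cons (a b : Γ) (i : Fin 7) (w : List (Fin 7)) :
    ev a b (i :: w) = gen a b i * ev a b w := by simp [ev]

@[simp] theorem ev_append (a b : Γ) (w w' : List (Fin 7)) :
    ev a b (w ++ w') = ev a b w * ev a b w' := by simp [ev]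

/-- The Cayley graph. -/
def Cay (a b : Γ) (ha : a * a = 1) : SimpleGraph Γ where
  Adj g h := g ≠ h ∧ ∃ i, g * gen a b i = h
  symm := by
    constructor
    rintro g h ⟨hne, i, rfl⟩
    refine ⟨hne.symm, ginv i, ?_⟩
    rw [gen_ginv a b ha, mul_inv_cancel_right]
  loopless := by
    constructor
    intro g h
    exact h.1 rfl

theorem cay_adj {a b : Γ} {ha : a * a = 1} {g h : Γ} :
    (Cay a b ha).Adj g h ↔ g ≠ h ∧ ∃ i, g * gen a b i = h := Iff.rfl

theorem cay_adj_mul {a b : Γ} {ha : a * a = 1} {g h : Γ} (x : Γ) :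
    (Cay a b ha).Adj (x * g) (x * h) ↔ (Cay a b ha).Adj g h := by
  rw [cay_adj, cay_adj]
  simp only [ne_eq, mul_right_inj, mul_assoc]

/-- Left translation as an automorphism. -/
def cayLeft (a b : Γ) (ha : a * a = 1) (x : Γ) : Cay a b ha ≃g Cay a b ha where
  toEquiv := Equiv.mulLeft x
  map_rel_iff' := by
    intro g h
    exact cay_adj_mul x

theorem cay_vertexTransitive (a b : Γ) (ha : a * a = 1) : VertexTransitive (Cay a b ha) := by
  intro x y
  refine ⟨cayLeft a b ha (y * x⁻¹), ?_⟩
  simp [cayLeft]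

theorem mem_cball_cay {a b : Γ} {ha : a * a = 1} {g h : Γ} {r : ℕ} :
    h ∈ cball (Cay a b ha) g r ↔ ∃ w : List (Fin 7), w.length ≤ r ∧ g * ev a b w = h := by
  induction r generalizing h with
  | zero =>
    rw [mem_cball_zero]
    constructor
    · rintro rfl
      exact ⟨[], by simp⟩
    · rintro ⟨w, hw, rfl⟩
      have : w = [] := List.eq_nil_of_length_eq_zero (by omega)
      subst this
      simp
  | succ r ih =>
    constructor
    · intro hh
      rcases mem_cball_succ hh with h1 | ⟨p, hp, hadj⟩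
      · obtain ⟨w, hw, rfl⟩ := ih.mp h1
        exact ⟨w, by omega, rfl⟩
      · obtain ⟨w, hw, rfl⟩ := ih.mp hp
        obtain ⟨_, i, rfl⟩ := hadj
        refine ⟨w ++ [i], by simp; omega, ?_⟩
        simp [mul_assoc]
    · rintro ⟨w, hw, rfl⟩
      rcases List.eq_nil_or_concat w with rfl | ⟨w', i, rfl⟩
      · simp only [ev_nil, mul_one]
        exact self_mem_cball _ _ _
      · simp only [List.concat_eq_append, List.length_append, List.length_cons,
          List.length_nil] at hw
        have h1 : g * ev a b w' ∈ cball (Cay a b ha) g r := ih.mpr ⟨w', by omega, rfl⟩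
        simp only [List.concat_eq_append, ev_append, ev_cons, ev_nil, mul_one]
        by_cases hne : g * ev a b w' = g * (ev a b w' * gen a b i)
        · rw [← hne]
          exact cball_mono (Nat.le_succ r) h1
        · exact mem_cball_of_adj h1 ⟨hne, i, by rw [mul_assoc]⟩

theorem cay_connected (a b : Γ) (ha : a * a = 1) (h : ∀ g : Γ, ∃ w, ev a b w = g) :
    (Cay a b ha).Connected := by
  have hne : Nonempty Γ := ⟨1⟩
  refine ⟨?_⟩
  intro x y
  obtain ⟨w, hw⟩ := h (x⁻¹ * y)
  have h1 : y ∈ cball (Cay a b ha) x w.length := mem_cball_cay.mpr ⟨w, le_rfl, by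
    rw [hw, mul_inv_cancel_left]⟩
  apply SimpleGraph.reachable_of_edist_ne_top
  intro h2
  simp only [cball, Set.mem_ofPred_eq, h2] at h1
  exact absurd h1 (by simp)

theorem cay_degree_le (a b : Γ) (ha : a * a = 1) (g : Γ) :
    ((Cay a b ha).neighborSet g).ncard ≤ 7 := by
  have h1 : (Cay a b ha).neighborSet g ⊆ Set.range fun i : Fin 7 => g * gen a b i := by
    rintro h ⟨_, i, rfl⟩
    exact ⟨i, rfl⟩
  have h2 : (Set.range fun i : Fin 7 => g * gen a b i).ncard ≤ 7 := by
    rw [← Set.image_univ]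
    refine (Set.ncard_image_le Set.finite_univ).trans ?_
    simp [Set.ncard_univ]
  exact (Set.ncard_le_ncard h1 (Set.finite_range _)).trans h2

theorem cay_neighborSet_finite (a b : Γ) (ha : a * a = 1) (g : Γ) :
    ((Cay a b ha).neighborSet g).Finite := by
  have h1 : (Cay a b ha).neighborSet g ⊆ Set.range fun i : Fin 7 => g * gen a b i := by
    rintro h ⟨_, i, rfl⟩
    exact ⟨i, rfl⟩
  exact (Set.finite_range _).subset h1

/-- If the same short words agree in two marked groups, the balls of the Cayley graphs are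
isomorphic. -/
theorem cay_ballIso {Γ' : Type*} [Group Γ'] {a b : Γ} {ha : a * a = 1} {a' b' : Γ'}
    {ha' : a' * a' = 1} {r : ℕ}
    (hC : ∀ w w' : List (Fin 7), w.length ≤ r + 1 → w'.length ≤ r + 1 →
      (ev a b w = ev a b w' ↔ ev a' b' w = ev a' b' w')) (g : Γ) (g' : Γ') :
    BallIso (Cay a b ha) g (Cay a' b' ha') g' r := by
  classical
  have hch : ∀ x : cball (Cay a b ha) g r, ∃ w : List (Fin 7), w.length ≤ r ∧
      g * ev a b w = x := fun x => mem_cball_cay.mp x.2
  have hch' : ∀ x : cball (Cay a' b' ha') g' r, ∃ w : List (Fin 7), w.length ≤ r ∧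
      g' * ev a' b' w = x := fun x => mem_cball_cay.mp x.2
  choose W hWl hW using hch
  choose W' hWl' hW' using hch'
  let e : (cball (Cay a b ha) g r) ≃ (cball (Cay a' b' ha') g' r) :=
    { toFun := fun x => ⟨g' * ev a' b' (W x), mem_cball_cay.mpr ⟨W x, hWl x, rfl⟩⟩
      invFun := fun x => ⟨g * ev a b (W' x), mem_cball_cay.mpr ⟨W' x, hWl' x, rfl⟩⟩
      left_inv := by
        intro x
        apply Subtype.ext
        have h1 := hW' ⟨g' * ev a' b' (W x), mem_cball_cay.mpr ⟨W x, hWl x, rfl⟩⟩
        simp only [mul_right_inj] at h1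
        have h2 := (hC _ _ ((hWl' _).trans (Nat.le_succ r)) ((hWl _).trans (Nat.le_succ r))).mpr h1
        simp only
        rw [h2, hW]
      right_inv := by
        intro x
        apply Subtype.ext
        have h1 := hW ⟨g * ev a b (W' x), mem_cball_cay.mpr ⟨W' x, hWl' x, rfl⟩⟩
        simp only [mul_right_inj] at h1
        have h2 := (hC _ _ ((hWl _).trans (Nat.le_succ r)) ((hWl' _).trans (Nat.le_succ r))).mp h1
        simp only
        rw [h2, hW'] }
  have hadj : ∀ x y : cball (Cay a b ha) g r,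
      ((Cay a' b' ha').Adj (e x : Γ') (e y : Γ') ↔ (Cay a b ha).Adj (x : Γ) (y : Γ)) := by
    intro x y
    have hx := hW x
    have hy := hW y
    rw [cay_adj, cay_adj]
    apply and_congr
    · apply not_congr
      change g' * ev a' b' (W x) = g' * ev a' b' (W y) ↔ _
      rw [mul_right_inj, ← hC _ _ ((hWl _).trans (Nat.le_succ r)) ((hWl _).trans (Nat.le_succ r)),
        ← hx, ← hy, mul_right_inj]
    · apply exists_congr
      intro i
      change g' * ev a' b' (W x) * gen a' b' i = g' * ev a' b' (W y) ↔ _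
      rw [← hx, ← hy, mul_assoc, mul_assoc, mul_right_inj, mul_right_inj]
      have := hC (W x ++ [i]) (W y) (by simp [hWl x]) ((hWl _).trans (Nat.le_succ r))
      simpa using this.symm
  refine ⟨⟨e, ?_⟩, ?_⟩
  · intro x y
    exact hadj x y
  · apply Subtype.ext
    change g' * ev a' b' (W ⟨g, _⟩) = g'
    have h1 := hW ⟨g, self_mem_cball _ _ _⟩
    simp only at h1
    have h2 : ev a b (W ⟨g, self_mem_cball _ _ _⟩) = ev a b [] := by
      rw [ev_nil]
      exact mul_eq_left.mp h1
    have h3 := (hC _ _ ((hWl _).trans (Nat.le_succ r)) (by simp)).mp h2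
    rw [h3]
    simp

end Pool.Agent.W394.LS
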