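import Mathlib

/-!
Definitions for the problem of linear soficity of vertex-transitive graphs.
-/

namespace Pool.Agent.W394.LS

/-- The closed ball of radius `r` about `v`: all vertices at graph distance at most `r`. -/
def cball {V : Type*} (G : SimpleGraph V) (v : V) (r : ℕ) : Set V :=
  {w | G.edist v w ≤ (r : ℕ∞)}

theorem self_mem_cball {V : Type*} (G : SimpleGraph V) (v : V) (r : ℕ) : v ∈ cball G v r := by
  simp [cball]

/-- The ball of radius `r` of `G` about `v` and the ball of radius `r` of `H` about `w`
(induced subgraphs) are isomorphic as rooted graphs. -/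
def BallIso {V W : Type*} (G : SimpleGraph V) (v : V) (H : SimpleGraph W) (w : W)
    (r : ℕ) : Prop :=
  ∃ f : (G.induce (cball G v r)) ≃g (H.induce (cball H w r)),
    f ⟨v, self_mem_cball G v r⟩ = ⟨w, self_mem_cball H w r⟩

/-- Vertex-transitivity. -/
def VertexTransitive {V : Type*} (G : SimpleGraph V) : Prop :=
  ∀ x y : V, ∃ f : G ≃g G, f x = y

/-- `G` and `H` have the same `r`-ball: every `r`-ball of `G` is isomorphic, as a rooted graph,
to every `r`-ball of `H`. -/
def SameBall {V W : Type*} (G : SimpleGraph V) (H : SimpleGraph W) (r : ℕ) : Prop :=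
  ∀ v w, BallIso G v H w r

/-- The quantity `D_G(r)`: the least diameter of a finite connected vertex-transitive graph with
the same `r`-ball as `G` (and `⊤` if there is none). -/
noncomputable def DG {V : Type*} (G : SimpleGraph V) (r : ℕ) : ℕ∞ :=
  sInf {d : ℕ∞ | ∃ (W : Type) (_ : Finite W) (H : SimpleGraph W),
    H.Connected ∧ VertexTransitive H ∧ SameBall H G r ∧ H.ediam = d}

end Pool.Agent.W394.LS
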