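import Pool.Agent.W394.LS.Lower

/-!
Asymptotics and assembly.
-/

namespace Pool.Agent.W394.LS

open Equiv Filter

theorem G0_degree (g : K) : (G0.neighborSet g).ncard = 7 := by
  obtain ⟨f, hf⟩ := G0_vt 1 g
  have h1 : G0.neighborSet g = f '' (G0.neighborSet 1) := by
    ext y
    constructor
    · intro hy
      refine ⟨f.symm y, ?_, by simp⟩
      have : G0.Adj g y := hy
      rw [← hf] at this
      have h2 := f.symm.map_rel_iff.mpr this
      simpa using h2
    · rintro ⟨x, hx, rfl⟩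
      rw [← hf]
      exact f.map_rel_iff.mpr hx
  rw [h1, Set.ncard_image_of_injective _ f.injective]
  have h2 : G0.neighborSet 1 = (gen (ga αZ βZ) (gb αZ βZ)) '' Set.univ := by
    ext y
    rw [Set.image_univ]
    constructor
    · intro hy
      obtain ⟨i, rfl⟩ := G0_adj_one.mp hy
      exact ⟨i, rfl⟩
    · rintro ⟨i, rfl⟩
      exact G0_adj_one.mpr ⟨i, rfl⟩
  rw [h2, Set.ncard_image_of_injective _ gen_injective]
  simp [Set.ncard_univ]

theorem degree_eq {V : Type*} {H : SimpleGraph V} {r : ℕ} (hr : 1 ≤ r) (hS : SameBall H G0 r)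
    (v : V) : (H.neighborSet v).ncard = 7 := by
  obtain ⟨F, hF⟩ := (hS v 1).exists_pIso
  have hv : v ∈ cball H v 0 := self_mem_cball _ _ _
  have h1 : F '' (H.neighborSet v) = G0.neighborSet (F v) := by
    ext y
    constructor
    · rintro ⟨q, hq, rfl⟩
      exact hF.adj_of (k := 0) (by omega) hv hq
    · intro hy
      obtain ⟨q, hq, rfl⟩ := hF.nbr (k := 0) (by omega) hv hy
      exact ⟨q, hq, rfl⟩
  rw [← G0_degree (F v), ← h1]
  symm
  apply Set.InjOn.ncard_image
  intro x hx y hy hxy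
  exact hF.inj x y (cball_mono (by omega) (mem_cball_of_adj hv hx))
    (cball_mono (by omega) (mem_cball_of_adj hv hy)) hxy

theorem BallIso.trans {U V W : Type*} {A : SimpleGraph U} {B : SimpleGraph V}
    {C : SimpleGraph W} {u : U} {v : V} {w : W} {r : ℕ} (h1 : BallIso A u B v r)
    (h2 : BallIso B v C w r) : BallIso A u C w r := by
  obtain ⟨f, hf⟩ := h1
  obtain ⟨g, hg⟩ := h2
  refine ⟨f.trans g, ?_⟩
  change g (f _) = _
  rw [hf, hg]

theorem log_factorial_ge (n : ℕ) (hn : 1 ≤ n) :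
    (n : ℝ) * Real.log n - n ≤ Real.log n.factorial := by
  have h1 := Real.pow_div_factorial_le_exp (n : ℝ) (by positivity) n
  have hn' : (0 : ℝ) < n := by exact_mod_cast hn
  have hf : (0 : ℝ) < n.factorial := by exact_mod_cast n.factorial_pos
  have h2 := Real.log_le_log (by positivity) h1
  rw [Real.log_exp, Real.log_div (by positivity) (by positivity), Real.log_pow] at h2
  linarith

theorem exists_of_DG {V : Type*} {G : SimpleGraph V} {r : ℕ} (h : DG G r < ⊤) :
    ∃ (W : Type) (_ : Finite W) (H : SimpleGraph W),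
    H.Connected ∧ VertexTransitive H ∧ SameBall H G r ∧ H.ediam = DG G r := by
  have hne : {d : ℕ∞ | ∃ (W : Type) (_ : Finite W) (H : SimpleGraph W),
    H.Connected ∧ VertexTransitive H ∧ SameBall H G r ∧ H.ediam = d}.Nonempty := by
    by_contra hc
    rw [Set.not_nonempty_iff_eq_empty] at hc
    unfold DG at h
    rw [hc, sInf_empty] at h
    exact lt_irrefl _ h
  exact csInf_mem hne

theorem DG_G0_lt_top (r : ℕ) : DG G0 r < ⊤ := by
  let N := 8 * (r + 1) + 16
  have : NeZero N := ⟨by omega⟩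
  have hfin : Finite (QN N) := inferInstance
  have h1 : DG G0 r ≤ (HN N).ediam := by
    apply sInf_le
    exact ⟨QN N, hfin, HN N, HN_conn N, HN_vt N, HN_G0_sameBall r N le_rfl, rfl⟩
  have h2 : (HN N).ediam ≠ ⊤ := by
    have : Nonempty (QN N) := ⟨1⟩
    exact SimpleGraph.connected_iff_ediam_ne_top.mp (HN_conn N)
  exact lt_of_le_of_lt h1 (lt_top_iff_ne_top.mpr h2)

/-- The quantitative lower bound for the diameter. -/
theorem diam_ge : ∃ r0 : ℕ, ∀ r ≥ r0, ∀ (W : Type) (_ : Finite W) (H : SimpleGraph W),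
    H.Connected → VertexTransitive H → SameBall H G0 r → ∀ d : ℕ, H.ediam ≤ (d : ℕ∞) →
    (1 / 144 : ℝ) * r * Real.log r ≤ d := by
  have h1 : ∀ᶠ r : ℕ in atTop, 2 * (Real.log 24 + 1) ≤ Real.log r :=
    (Real.tendsto_log_atTop.comp tendsto_natCast_atTop_atTop).eventually_ge_atTop _
  obtain ⟨r0, hr0⟩ := eventually_atTop.mp h1
  refine ⟨max r0 36, ?_⟩
  intro r hr W _ H hc hv hS d hd
  have hr1 : r0 ≤ r := le_trans (le_max_left _ _) hr
  have hr2 : 36 ≤ r := le_trans (le_max_right _ _) hr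
  have hlog := hr0 r hr1
  have hn3 : 3 ≤ r / 12 := by omega
  have hn : 12 * (r / 12) ≤ r := Nat.mul_div_le r 12
  have h2 := factorial_le_pow hc hv hn3 hn hS hd
  have h3 : ((r / 12 : ℕ).factorial : ℝ) ≤ (8 : ℝ) ^ d := by exact_mod_cast h2
  have h4 := Real.log_le_log (by exact_mod_cast Nat.factorial_pos _) h3
  rw [Real.log_pow] at h4
  have h5 := log_factorial_ge (r / 12) (by omega)
  have h6 : Real.log 8 ≤ 3 := by
    have : Real.log 8 = 3 * Real.log 2 := by
      rw [show (8 : ℝ) = 2 ^ 3 by norm_num, Real.log_pow]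
      norm_num
    rw [this]
    have := Real.log_two_lt_d9
    linarith
  have h7 : (r : ℝ) / 24 ≤ ((r / 12 : ℕ) : ℝ) := by
    have h8 : r ≤ 24 * (r / 12) := by omega
    have h9 : (r : ℝ) ≤ 24 * ((r / 12 : ℕ) : ℝ) := by exact_mod_cast h8
    linarith
  have hrpos : (0 : ℝ) < r := by
    have : (36 : ℝ) ≤ r := by exact_mod_cast hr2
    linarith
  have h10 : Real.log r - Real.log 24 ≤ Real.log ((r / 12 : ℕ) : ℝ) := by
    rw [← Real.log_div (by positivity) (by norm_num)]
    exact Real.log_le_log (by positivity) h7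
  have h11 : (1 / 2 : ℝ) * Real.log r ≤ Real.log ((r / 12 : ℕ) : ℝ) - 1 := by linarith
  have h24 : (0 : ℝ) ≤ Real.log 24 := Real.log_nonneg (by norm_num)
  have hlogpos : 0 ≤ Real.log r := by linarith
  have h12 : (r : ℝ) / 24 * ((1 / 2 : ℝ) * Real.log r) ≤
      ((r / 12 : ℕ) : ℝ) * (Real.log ((r / 12 : ℕ) : ℝ) - 1) :=
    mul_le_mul h7 h11 (by positivity) (by positivity)
  have h13 : (d : ℝ) * Real.log 8 ≤ d * 3 := by
    have : (0 : ℝ) ≤ d := by positivity
    nlinarith
  nlinarith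

theorem exists_log_ge (c : ℕ) : ∃ r1 : ℕ, ∀ r ≥ r1, (c : ℝ) < (1 / 144 : ℝ) * Real.log r := by
  have h1 : ∀ᶠ r : ℕ in atTop, 144 * (c : ℝ) + 1 ≤ Real.log r :=
    (Real.tendsto_log_atTop.comp tendsto_natCast_atTop_atTop).eventually_ge_atTop _
  obtain ⟨r1, hr1⟩ := eventually_atTop.mp h1
  exact ⟨r1, fun r hr => by have := hr1 r hr; linarith⟩

/-- For every `c`, all large `r`, and every finite graph as above, the diameter exceeds `c r`. -/
theorem linear_lt_ediam (c : ℕ) : ∃ r : ℕ, 1 ≤ r ∧ ∀ (W : Type) (_ : Finite W)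
    (H : SimpleGraph W), H.Connected → VertexTransitive H → SameBall H G0 r →
    (c : ℕ∞) * (r : ℕ∞) < H.ediam := by
  obtain ⟨r0, hr0⟩ := diam_ge
  obtain ⟨r1, hr1⟩ := exists_log_ge c
  refine ⟨max (max r0 r1) 1, le_max_right _ _, ?_⟩
  set r := max (max r0 r1) 1 with hrdef
  have hr0' : r0 ≤ r := le_trans (le_max_left _ _) (le_max_left _ _)
  have hr1' : r1 ≤ r := le_trans (le_max_right _ _) (le_max_left _ _)
  have hr1'' : 1 ≤ r := le_max_right _ _
  intro W hW H hc hv hS
  by_contra hlt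
  push Not at hlt
  have h1 : H.ediam ≤ ((c * r : ℕ) : ℕ∞) := by
    push_cast
    exact hlt
  have h2 := hr0 r hr0' W hW H hc hv hS (c * r) h1
  have h3 := hr1 r hr1'
  have hrpos : (0 : ℝ) < r := by exact_mod_cast hr1''
  push_cast at h2
  nlinarith

end Pool.Agent.W394.LS
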