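import Pool.Agent.W394.LS.Cayley

/-!
The group of permutations of `ℤ` (or of `ZMod N`) generated by the transposition `(0 1)` and the
translation by `1`.
-/

namespace Pool.Agent.W394.LS

open Equiv

theorem ev_inv {Γ : Type*} [Group Γ] (a b : Γ) (h : a * a = 1) (w : List (Fin 7)) :
    ∃ w', ev a b w' = (ev a b w)⁻¹ := by
  induction w with
  | nil => exact ⟨[], by simp⟩
  | cons i w ih =>
    obtain ⟨w', hw'⟩ := ih
    refine ⟨w' ++ [ginv i], ?_⟩
    rw [ev_append, hw', ev_cons, ev_cons, ev_nil, mul_one, gen_ginv a b h, mul_inv_rev]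

section closure

variable {X : Type*} (α β : Perm X)

/-- The group generated by `α` and `β`. -/
abbrev Grp : Subgroup (Perm X) := Subgroup.closure {α, β}

/-- First generator. -/
def ga : Grp α β := ⟨α, Subgroup.subset_closure (by simp)⟩

/-- Second generator. -/
def gb : Grp α β := ⟨β, Subgroup.subset_closure (by simp)⟩

theorem coe_gen (i : Fin 7) : ((gen (ga α β) (gb α β) i : Grp α β) : Perm X) = gen α β i := by
  fin_cases i <;> simp [gen, ga, gb]

theorem coe_ev (w : List (Fin 7)) : ((ev (ga α β) (gb α β) w : Grp α β) : Perm X) = ev α β w := by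
  induction w with
  | nil => rfl
  | cons i w ih => rw [ev_cons, ev_cons, Subgroup.coe_mul, coe_gen, ih]

theorem ga_mul (h : α * α = 1) : ga α β * ga α β = 1 := Subtype.ext h

theorem ev_surj (h : α * α = 1) (g : Grp α β) : ∃ w, ev (ga α β) (gb α β) w = g := by
  obtain ⟨g, hg⟩ := g
  have key : ∃ w, ev α β w = g := by
    refine Subgroup.closure_induction (p := fun g _ => ∃ w, ev α β w = g) ?_ ?_ ?_ ?_ hg
    · rintro x (rfl | rfl)
      · exact ⟨[0], by simp [gen]⟩
      · exact ⟨[1], by simp [gen]⟩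
    · exact ⟨[], rfl⟩
    · rintro x y _ _ ⟨w, rfl⟩ ⟨w', rfl⟩
      exact ⟨w ++ w', by simp⟩
    · rintro x _ ⟨w, rfl⟩
      exact ev_inv α β h w
  obtain ⟨w, rfl⟩ := key
  exact ⟨w, Subtype.ext (coe_ev α β w)⟩

end closure

/-- Transposition `(0 1)` on `ℤ`. -/
def αZ : Perm ℤ := swap 0 1

/-- Translation on `ℤ`. -/
def βZ : Perm ℤ := Equiv.addRight 1

theorem αZ_mul : αZ * αZ = 1 := by
  rw [αZ, Equiv.swap_mul_self]

/-- Transposition `(0 1)` on `ZMod N`. -/
def αN (N : ℕ) : Perm (ZMod N) := swap 0 1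

/-- Translation on `ZMod N`. -/
def βN (N : ℕ) : Perm (ZMod N) := Equiv.addRight 1

theorem αN_mul (N : ℕ) : αN N * αN N = 1 := by
  rw [αN, Equiv.swap_mul_self]

theorem βZ_apply (x : ℤ) : βZ x = x + 1 := rfl

theorem βZ_inv_apply (x : ℤ) : βZ⁻¹ x = x - 1 := by
  rw [Equiv.Perm.inv_eq_iff_eq, βZ_apply]; ring

theorem βN_apply {N : ℕ} (x : ZMod N) : βN N x = x + 1 := rfl

theorem βN_inv_apply {N : ℕ} (x : ZMod N) : (βN N)⁻¹ x = x - 1 := by
  rw [Equiv.Perm.inv_eq_iff_eq, βN_apply]; ring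

theorem αZ_apply (x : ℤ) : αZ x = if x = 0 then 1 else if x = 1 then 0 else x := by
  rw [αZ, Equiv.swap_apply_def]

/-- Explicit form of the seven generators. -/
def fZ : Fin 7 → ℤ → ℤ := ![fun x => if x = 0 then 1 else if x = 1 then 0 else x,
  fun x => x + 1, fun x => x - 1, fun x => x + 2, fun x => x - 2,
  fun x => if x + 1 = 0 then 1 else if x + 1 = 1 then 0 else x + 1,
  fun x => (if x = 0 then 1 else if x = 1 then 0 else x) - 1]

theorem gen_apply (i : Fin 7) (x : ℤ) : gen αZ βZ i x = fZ i x := by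
  fin_cases i
  · simp [gen, fZ, αZ_apply]
  · simp [gen, fZ, βZ_apply]
  · simp [gen, fZ, βZ_inv_apply]
  · simp only [gen, fZ, Fin.reduceFinMk, Matrix.cons_val, Perm.mul_apply, βZ_apply]; ring
  · simp only [gen, fZ, Fin.reduceFinMk, Matrix.cons_val, Perm.mul_apply, βZ_inv_apply]; ring
  · simp only [gen, fZ, Fin.reduceFinMk, Matrix.cons_val, Perm.mul_apply, βZ_apply, αZ_apply]
  · simp only [gen, fZ, Fin.reduceFinMk, Matrix.cons_val, Perm.mul_apply, βZ_inv_apply, αZ_apply]

theorem fZ_dist (i : Fin 7) (x : ℤ) : |fZ i x - x| ≤ 2 := by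
  fin_cases i <;> simp only [fZ, Fin.reduceFinMk, Matrix.cons_val, abs_le, Fin.zero_eta,
    Fin.mk_one, Fin.isValue, Matrix.cons_val_zero, Matrix.cons_val_one] <;>
    (try split_ifs) <;> omega

/-- Shift of a generator. -/
def sh : Fin 7 → ℤ := ![0, 1, -1, 2, -2, 1, -1]

theorem fZ_far (i : Fin 7) (x : ℤ) (hx : 3 ≤ |x|) : fZ i x = x + sh i := by
  rw [le_abs] at hx
  fin_cases i <;> simp only [fZ, sh, Fin.reduceFinMk, Matrix.cons_val, Fin.zero_eta,
    Fin.mk_one, Fin.isValue, Matrix.cons_val_zero, Matrix.cons_val_one] <;>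
    (try split_ifs) <;> omega

theorem sh_abs (i : Fin 7) : |sh i| ≤ 2 := by
  fin_cases i <;> simp [sh]

theorem ev_dist (w : List (Fin 7)) (x : ℤ) : |ev αZ βZ w x - x| ≤ 2 * w.length := by
  induction w with
  | nil => simp
  | cons i w ih =>
    rw [ev_cons, Perm.mul_apply, gen_apply]
    have h1 := fZ_dist i (ev αZ βZ w x)
    simp only [List.length_cons]
    push_cast
    rw [abs_le] at *
    constructor <;> linarith [ih.1, ih.2, h1.1, h1.2]

theorem ev_far (w : List (Fin 7)) (x : ℤ) (hx : 2 * (w.length : ℤ) + 3 ≤ |x|) :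
    ev αZ βZ w x = x + (w.map sh).sum := by
  induction w with
  | nil => simp
  | cons i w ih =>
    simp only [List.length_cons] at hx
    push_cast at hx
    have h1 := ih (by linarith)
    rw [ev_cons, Perm.mul_apply, gen_apply]
    have h2 := ev_dist w x
    have h3 : 3 ≤ |ev αZ βZ w x| := by
      have h4 : |x| ≤ |ev αZ βZ w x| + |ev αZ βZ w x - x| := by
        calc |x| = |ev αZ βZ w x - (ev αZ βZ w x - x)| := by congr 1; ring
          _ ≤ _ := abs_sub _ _
      linarith
    rw [fZ_far i _ h3, h1]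
    simp only [List.map_cons, List.sum_cons]
    ring

theorem cast_swap {N : ℕ} (x : ℤ) (hx : |x| + 2 ≤ N) :
    ((αZ x : ℤ) : ZMod N) = αN N (x : ZMod N) := by
  have hN : (2 : ℤ) ≤ N := by
    have := abs_nonneg x
    linarith
  rw [αZ_apply, αN, Equiv.swap_apply_def]
  by_cases h0 : x = 0
  · subst h0
    simp
  · by_cases h1 : x = 1
    · subst h1
      simp only [one_ne_zero, if_true, if_false, Int.cast_zero, Int.cast_one]
      by_cases h2 : (1 : ZMod N) = 0
      · rw [if_pos h2, h2]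
      · rw [if_neg h2]
    · rw [if_neg h0, if_neg h1]
      rw [if_neg, if_neg]
      · intro h
        have h2 : ((x - 1 : ℤ) : ZMod N) = 0 := by
          push_cast; rw [h]; ring
        rw [ZMod.intCast_zmod_eq_zero_iff_dvd] at h2
        have h3 : |x - 1| < N := by
          rw [abs_lt]
          have := abs_le.mp (show |x| ≤ N - 2 by linarith)
          constructor <;> linarith [this.1, this.2]
        have h4 := Int.eq_zero_of_abs_lt_dvd h2 h3
        omega
      · intro h
        rw [ZMod.intCast_zmod_eq_zero_iff_dvd] at h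
        have h3 : |x| < N := by linarith
        exact h0 (Int.eq_zero_of_abs_lt_dvd h h3)

theorem cast_gen {N : ℕ} (i : Fin 7) (x : ℤ) (hx : |x| + 4 ≤ N) :
    ((gen αZ βZ i x : ℤ) : ZMod N) = gen (αN N) (βN N) i (x : ZMod N) := by
  have hx1 : |x + 1| + 2 ≤ N := by
    have : |x + 1| ≤ |x| + |1| := abs_add_le _ _
    simp at this
    linarith
  fin_cases i
  · simp only [gen, Fin.zero_eta, Fin.isValue, Matrix.cons_val_zero]
    exact cast_swap x (by linarith)
  · simp [gen, βZ_apply, βN_apply]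
  · simp [gen, βZ_inv_apply, βN_inv_apply]
  · simp [gen, βZ_apply, βN_apply]
  · simp only [gen, Fin.reduceFinMk, Matrix.cons_val, Perm.mul_apply, βZ_inv_apply, βN_inv_apply]
    push_cast; ring
  · simp only [gen, Fin.reduceFinMk, Matrix.cons_val, Perm.mul_apply, βZ_apply, βN_apply]
    rw [cast_swap (x + 1) hx1]
    push_cast; ring
  · simp only [gen, Fin.reduceFinMk, Matrix.cons_val, Perm.mul_apply, βZ_inv_apply, βN_inv_apply]
    push_cast
    rw [cast_swap x (by linarith)]

theorem cast_ev {N : ℕ} (w : List (Fin 7)) (x : ℤ) (hx : |x| + 2 * w.length + 4 ≤ N) :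
    ((ev αZ βZ w x : ℤ) : ZMod N) = ev (αN N) (βN N) w (x : ZMod N) := by
  induction w with
  | nil => simp
  | cons i w ih =>
    simp only [List.length_cons] at hx
    push_cast at hx
    rw [ev_cons, ev_cons, Perm.mul_apply, Perm.mul_apply, ← ih (by linarith), cast_gen]
    have h2 := ev_dist w x
    have h4 : |ev αZ βZ w x| ≤ |ev αZ βZ w x - x| + |x| := by
      calc |ev αZ βZ w x| = |(ev αZ βZ w x - x) + x| := by congr 1; ring
        _ ≤ _ := abs_add_le _ _
    linarith

theorem ev_eq_iff {N L : ℕ} (hN : 8 * L + 16 ≤ N) (w w' : List (Fin 7)) (hw : w.length ≤ L)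
    (hw' : w'.length ≤ L) :
    ev αZ βZ w = ev αZ βZ w' ↔ ev (αN N) (βN N) w = ev (αN N) (βN N) w' := by
  have hwZ : (w.length : ℤ) ≤ L := by exact_mod_cast hw
  have hwZ' : (w'.length : ℤ) ≤ L := by exact_mod_cast hw'
  have hNZ : 8 * (L : ℤ) + 16 ≤ N := by exact_mod_cast hN
  have hL : (0 : ℤ) ≤ L := by positivity
  have : NeZero N := ⟨by omega⟩
  constructor
  · intro h
    ext z
    obtain ⟨x, hx, rfl⟩ : ∃ x : ℤ, |x| ≤ N / 2 ∧ (x : ZMod N) = z := by
      refine ⟨z.valMinAbs, ?_, z.coe_valMinAbs⟩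
      have h1 := z.natAbs_valMinAbs_le
      rw [Int.abs_eq_natAbs]
      exact_mod_cast h1
    rw [← cast_ev w x, ← cast_ev w' x, h]
    · omega
    · omega
  · intro h
    have key : ∀ x : ℤ, |x| ≤ 2 * L + 3 → ev αZ βZ w x = ev αZ βZ w' x := by
      intro x hx
      have h1 := cast_ev w x (N := N) (by linarith)
      have h2 := cast_ev w' x (N := N) (by linarith)
      rw [h, ← h2] at h1
      rw [← sub_eq_zero, ← Int.cast_sub, ZMod.intCast_zmod_eq_zero_iff_dvd] at h1
      have h3 := ev_dist w x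
      have h4 := ev_dist w' x
      have h5 : |ev αZ βZ w x - ev αZ βZ w' x| < N := by
        rw [abs_lt]
        rw [abs_le] at h3 h4
        constructor <;> linarith [h3.1, h3.2, h4.1, h4.2]
      have h6 := Int.eq_zero_of_abs_lt_dvd h1 h5
      linarith
    ext x
    by_cases hx : |x| ≤ 2 * L + 3
    · exact key x hx
    · push Not at hx
      rw [ev_far w x (by linarith), ev_far w' x (by linarith)]
      have h0 : |(2 * L + 3 : ℤ)| = 2 * L + 3 := abs_of_nonneg (by linarith)
      have h1 := key (2 * L + 3) (by rw [h0])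
      rw [ev_far w _ (by rw [h0]; linarith), ev_far w' _ (by rw [h0]; linarith)] at h1
      linarith

/-- The infinite group. -/
abbrev K : Subgroup (Perm ℤ) := Grp αZ βZ

/-- The finite groups. -/
abbrev QN (N : ℕ) : Subgroup (Perm (ZMod N)) := Grp (αN N) (βN N)

/-- The infinite vertex-transitive graph. -/
def G0 : SimpleGraph K := Cay (ga αZ βZ) (gb αZ βZ) (ga_mul _ _ αZ_mul)

/-- The finite vertex-transitive graphs. -/
def HN (N : ℕ) : SimpleGraph (QN N) :=
  Cay (ga (αN N) (βN N)) (gb (αN N) (βN N)) (ga_mul _ _ (αN_mul N))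

theorem G0_vt : VertexTransitive G0 := cay_vertexTransitive _ _ _

theorem G0_conn : G0.Connected := cay_connected _ _ _ (ev_surj _ _ αZ_mul)

theorem HN_vt (N : ℕ) : VertexTransitive (HN N) := cay_vertexTransitive _ _ _

theorem HN_conn (N : ℕ) : (HN N).Connected := cay_connected _ _ _ (ev_surj _ _ (αN_mul N))

theorem HN_G0_sameBall (r N : ℕ) (hN : 8 * (r + 1) + 16 ≤ N) : SameBall (HN N) G0 r := by
  intro v w
  apply cay_ballIso
  intro l l' hl hl'
  rw [Subtype.ext_iff, Subtype.ext_iff, coe_ev, coe_ev, coe_ev, coe_ev]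
  exact (ev_eq_iff hN l l' hl hl').symm

theorem βZ_pow_apply (n : ℕ) (x : ℤ) : (βZ ^ n) x = x + n := by
  induction n with
  | zero => simp
  | succ n ih =>
    rw [pow_succ', Perm.mul_apply, ih, βZ_apply]
    push_cast
    ring

instance : Infinite K := by
  apply Infinite.of_injective (fun n : ℕ => (gb αZ βZ) ^ n)
  intro m n h
  have h1 : ∀ n : ℕ, (((gb αZ βZ) ^ n : K) : Perm ℤ) 0 = n := by
    intro n
    have : (((gb αZ βZ) ^ n : K) : Perm ℤ) = βZ ^ n := by
      rw [Subgroup.coe_pow]; rfl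
    rw [this, βZ_pow_apply, zero_add]
  have h2 := congrArg (fun g : K => (g : Perm ℤ) 0) h
  simp only [h1] at h2
  exact_mod_cast h2

instance (N : ℕ) [NeZero N] : Finite (QN N) := inferInstance

end Pool.Agent.W394.LS
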