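import Pool.Agent.W394.LS.Table

/-!
Lower bound for the size of a finite vertex-transitive graph with the same `r`-ball as `G0`.
-/

namespace Pool.Agent.W394.LS

open Equiv

/-- Evaluation of words in the three letters `a, b, b⁻¹`. -/
def ev3 (w : List (Fin 3)) : K := (w.map g3).prod

@[simp] theorem ev3_nil : ev3 [] = 1 := rfl

@[simp] theorem ev3_cons (i : Fin 3) (w : List (Fin 3)) : ev3 (i :: w) = g3 i * ev3 w := by
  simp [ev3]

@[simp] theorem ev3_append (w w' : List (Fin 3)) : ev3 (w ++ w') = ev3 w * ev3 w' := by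
  simp [ev3]

section

variable {V : Type*} {H : SimpleGraph V} {r : ℕ}

theorem rel_existsUnique (hS : SameBall H G0 r) (hr : 1 ≤ r) (s : Fin 3) (v : V) :
    ∃! q, Rel H s v q := by
  obtain ⟨F, hF⟩ := (hS v 1).exists_pIso
  have hv : v ∈ cball H v 0 := self_mem_cball _ _ _
  have h1 : G0.Adj (F v) (g3 s) := by
    rw [hF.root]
    exact rel_adj s ((G0_rel_one s).mpr rfl)
  obtain ⟨q, hq, hFq⟩ := hF.nbr (k := 0) (by omega) hv h1
  refine ⟨q, ?_, ?_⟩
  · change Rel H s v q
    rw [hF.rel_iff s (k := 0) (by omega) hv hq, hF.root, G0_rel_one, hFq]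
  · intro q' hq'
    have hq'' : Rel H s v q' := hq'
    have h2 := rel_adj s hq''
    rw [hF.rel_iff s (k := 0) (by omega) hv h2, hF.root, G0_rel_one] at hq''
    have h3 : q ∈ cball H v r := cball_mono (by omega) (mem_cball_of_adj hv hq)
    have h4 : q' ∈ cball H v r := cball_mono (by omega) (mem_cball_of_adj hv h2)
    exact hF.inj q' q h4 h3 (by rw [hq'', hFq])

/-- The move along a letter. -/
noncomputable def mv (hS : SameBall H G0 r) (hr : 1 ≤ r) (s : Fin 3) (v : V) : V :=
  (rel_existsUnique hS hr s v).choose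

variable (hS : SameBall H G0 r) (hr : 1 ≤ r)

theorem mv_spec (s : Fin 3) (v : V) : Rel H s v (mv hS hr s v) :=
  (rel_existsUnique hS hr s v).choose_spec.1

theorem mv_unique {s : Fin 3} {v q : V} (h : Rel H s v q) : q = mv hS hr s v :=
  (rel_existsUnique hS hr s v).choose_spec.2 q h

theorem mv_map (f : H ≃g H) (s : Fin 3) (v : V) : mv hS hr s (f v) = f (mv hS hr s v) :=
  (mv_unique hS hr (rel_map f s (mv_spec hS hr s v))).symm

/-- The action of words. -/
noncomputable def act : List (Fin 3) → V → V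
  | [], v => v
  | s :: w, v => act w (mv hS hr s v)

@[simp] theorem act_nil (v : V) : act hS hr [] v = v := rfl

@[simp] theorem act_cons (s : Fin 3) (w : List (Fin 3)) (v : V) :
    act hS hr (s :: w) v = act hS hr w (mv hS hr s v) := rfl

theorem act_append (w w' : List (Fin 3)) (v : V) :
    act hS hr (w ++ w') v = act hS hr w' (act hS hr w v) := by
  induction w generalizing v with
  | nil => rfl
  | cons s w ih => simp [ih]

theorem act_map (f : H ≃g H) (w : List (Fin 3)) (v : V) :
    act hS hr w (f v) = f (act hS hr w v) := by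
  induction w generalizing v with
  | nil => rfl
  | cons s w ih => simp [mv_map, ih]

theorem act_spec {v : V} {x : K} {F : V → K} (hF : PIso H v G0 x r F) (w : List (Fin 3)) {k : ℕ}
    {p : V} (hp : p ∈ cball H v k) (hk : k + w.length ≤ r) :
    F (act hS hr w p) = F p * ev3 w ∧ act hS hr w p ∈ cball H v (k + w.length) := by
  induction w generalizing k p with
  | nil => simpa using hp
  | cons s w ih =>
    simp only [List.length_cons] at hk
    have h1 := mv_spec hS hr s p
    have h2 := rel_adj s h1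
    have h3 : mv hS hr s p ∈ cball H v (k + 1) := mem_cball_of_adj hp h2
    have h4 := ih h3 (by omega)
    rw [hF.rel_iff s (by omega) hp h2, G0_rel] at h1
    simp only [act_cons, ev3_cons, List.length_cons]
    refine ⟨?_, ?_⟩
    · rw [h4.1, h1, mul_assoc]
    · have := h4.2
      rwa [show k + 1 + w.length = k + (w.length + 1) by omega] at this

theorem act_eq_iff {w w' : List (Fin 3)} (hw : w.length ≤ r) (hw' : w'.length ≤ r) (v : V) :
    act hS hr w v = act hS hr w' v ↔ ev3 w = ev3 w' := by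
  obtain ⟨F, hF⟩ := (hS v 1).exists_pIso
  have hv : v ∈ cball H v 0 := self_mem_cball _ _ _
  have h1 := act_spec hS hr hF w hv (by omega)
  have h2 := act_spec hS hr hF w' hv (by omega)
  rw [hF.root, one_mul] at h1 h2
  rw [← h1.1, ← h2.1]
  constructor
  · intro h
    rw [h]
  · intro h
    exact hF.inj _ _ (cball_mono (by omega) h1.2) (cball_mono (by omega) h2.2) h

end

theorem coe_ev3_replicate (j : ℕ) : ((ev3 (List.replicate j 1) : K) : Perm ℤ) = βZ ^ j := by
  induction j with
  | zero => rfl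
  | succ j ih =>
    rw [List.replicate_succ, ev3_cons, Subgroup.coe_mul, ih, pow_succ']
    rfl

theorem coe_ev3_replicate' (j : ℕ) :
    ((ev3 (List.replicate j 2) : K) : Perm ℤ) = (βZ ^ j)⁻¹ := by
  induction j with
  | zero => rfl
  | succ j ih =>
    rw [List.replicate_succ, ev3_cons, Subgroup.coe_mul, ih, pow_succ, mul_inv_rev]
    rfl

theorem swap_word_zero (k : ℕ) : ∃ w : List (Fin 3), w.length ≤ 4 * (k + 1) ∧
    ((ev3 w : K) : Perm ℤ) = swap (-((k : ℤ) + 1)) 0 := by
  induction k with
  | zero =>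
    refine ⟨[2, 0, 1], by simp, ?_⟩
    have h1 : ((ev3 [2, 0, 1] : K) : Perm ℤ) = βZ⁻¹ * (αZ * βZ) := by
      simp only [ev3_cons, ev3_nil, mul_one, Subgroup.coe_mul]
      rfl
    rw [h1]
    have h2 := Equiv.swap_apply_apply βZ⁻¹ 0 1
    rw [βZ_inv_apply, βZ_inv_apply, inv_inv] at h2
    rw [← mul_assoc]
    change βZ⁻¹ * swap 0 1 * βZ = _
    rw [← h2]
    simp
  | succ k ih =>
    obtain ⟨w, hw, hev⟩ := ih
    refine ⟨[2, 0] ++ w ++ [0, 1], by simp; omega, ?_⟩
    have h1 : ((ev3 ([2, 0] ++ w ++ [0, 1]) : K) : Perm ℤ) =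
        (βZ⁻¹ * αZ) * (ev3 w : K) * (αZ * βZ) := by
      simp only [ev3_append, ev3_cons, ev3_nil, mul_one, Subgroup.coe_mul]
      rfl
    have h2 : αZ * βZ = (βZ⁻¹ * αZ)⁻¹ := by
      rw [mul_inv_rev, inv_inv]
      congr 1
    have h3 : (βZ⁻¹ * αZ) (-((k : ℤ) + 1)) = -(((k + 1 : ℕ) : ℤ) + 1) := by
      rw [Perm.mul_apply, βZ_inv_apply, αZ_apply, if_neg (by omega), if_neg (by omega)]
      push_cast; ring
    have h4 : (βZ⁻¹ * αZ) 0 = 0 := by
      rw [Perm.mul_apply, βZ_inv_apply, αZ_apply, if_pos rfl]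
      ring
    rw [h1, hev, h2, ← Equiv.swap_apply_apply, h3, h4]

theorem swap_word (n i j : ℕ) (hi : i < n) (hj : j < n) : ∃ w : List (Fin 3),
    w.length ≤ 6 * n ∧ ((ev3 w : K) : Perm ℤ) = swap (i : ℤ) (j : ℤ) := by
  have key : ∀ i j : ℕ, i < j → j < n → ∃ w : List (Fin 3),
      w.length ≤ 6 * n ∧ ((ev3 w : K) : Perm ℤ) = swap (i : ℤ) (j : ℤ) := by
    intro i j hij hj
    obtain ⟨k, rfl⟩ : ∃ k, j = i + (k + 1) := ⟨j - i - 1, by omega⟩
    obtain ⟨w, hw, hev⟩ := swap_word_zero k
    refine ⟨List.replicate (i + (k + 1)) 1 ++ w ++ List.replicate (i + (k + 1)) 2, ?_, ?_⟩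
    · simp only [List.length_append, List.length_replicate]
      omega
    · rw [ev3_append, ev3_append, Subgroup.coe_mul, Subgroup.coe_mul, coe_ev3_replicate,
        coe_ev3_replicate', hev, ← Equiv.swap_apply_apply, βZ_pow_apply, βZ_pow_apply]
      congr 1
      · push_cast; ring
      · push_cast; ring
  rcases lt_trichotomy i j with h | h | h
  · exact key i j h hj
  · subst h
    refine ⟨[], by simp, ?_⟩
    rw [swap_self]
    rfl
  · obtain ⟨w, hw, hev⟩ := key j i h hi
    exact ⟨w, hw, by rw [hev, swap_comm]⟩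

theorem exists_T (n : ℕ) : ∃ T : Fin n → Fin n → List (Fin 3), ∀ i j, (T i j).length ≤ 6 * n ∧
    ((ev3 (T i j) : K) : Perm ℤ) = swap ((i : ℕ) : ℤ) ((j : ℕ) : ℤ) := by
  have h : ∀ i j : Fin n, ∃ w : List (Fin 3), w.length ≤ 6 * n ∧
      ((ev3 w : K) : Perm ℤ) = swap ((i : ℕ) : ℤ) ((j : ℕ) : ℤ) :=
    fun i j => swap_word n i j i.2 j.2
  choose T hT using h
  exact ⟨T, hT⟩

theorem cast_swap_fin {n : ℕ} (x y u : Fin n) :
    (((swap x y u : Fin n) : ℕ) : ℤ) = swap ((x : ℕ) : ℤ) ((y : ℕ) : ℤ) ((u : ℕ) : ℤ) := by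
  rw [swap_apply_def, swap_apply_def]
  by_cases h1 : u = x
  · subst h1; simp
  · have h1' : ((u : ℕ) : ℤ) ≠ ((x : ℕ) : ℤ) := by
      intro h
      exact h1 (Fin.ext (by exact_mod_cast h))
    rw [if_neg h1, if_neg h1']
    by_cases h2 : u = y
    · subst h2; simp
    · have h2' : ((u : ℕ) : ℤ) ≠ ((y : ℕ) : ℤ) := by
        intro h
        exact h2 (Fin.ext (by exact_mod_cast h))
      rw [if_neg h2, if_neg h2']

section

variable {V : Type*} {H : SimpleGraph V} {r : ℕ} (hS : SameBall H G0 r) (hr : 1 ≤ r)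

theorem exists_q (n : ℕ) (hn : 12 * n ≤ r) (T : Fin n → Fin n → List (Fin 3))
    (hT : ∀ i j, (T i j).length ≤ 6 * n ∧
      ((ev3 (T i j) : K) : Perm ℤ) = swap ((i : ℕ) : ℤ) ((j : ℕ) : ℤ)) (p : Perm (Fin n)) :
    ∃ q : V → V, (∀ (f : H ≃g H) v, q (f v) = f (q v)) ∧
      ∀ i j v, q (act hS hr (T i j) v) = act hS hr (T (p i) (p j)) (q v) := by
  induction p using Equiv.Perm.swap_induction_on with
  | one => exact ⟨id, fun _ _ => rfl, fun _ _ _ => rfl⟩
  | swap_mul f x y hxy ih =>
    obtain ⟨q, hq1, hq2⟩ := ih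
    refine ⟨fun v => act hS hr (T x y) (q v), ?_, ?_⟩
    · intro g v
      simp only [hq1, act_map]
    · intro i j v
      simp only [hq2]
      rw [← act_append, ← act_append, act_eq_iff]
      · apply Subtype.ext
        rw [ev3_append, ev3_append, Subgroup.coe_mul, Subgroup.coe_mul, (hT _ _).2, (hT _ _).2,
          (hT _ _).2]
        simp only [Perm.mul_apply, cast_swap_fin]
        rw [Equiv.swap_apply_apply, Equiv.swap_inv, ← mul_assoc, ← mul_assoc,
          Equiv.swap_mul_self, one_mul]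
      · rw [List.length_append]
        have := (hT (f i) (f j)).1
        have := (hT x y).1
        omega
      · rw [List.length_append]
        have := (hT ((swap x y * f) i) ((swap x y * f) j)).1
        have := (hT x y).1
        omega

include hS hr

theorem factorial_le_card [Finite V] [Nonempty V] (hVT : VertexTransitive H) (n : ℕ)
    (hn3 : 3 ≤ n) (hn : 12 * n ≤ r) : n.factorial ≤ Nat.card V := by
  classical
  obtain ⟨T, hT⟩ := exists_T n
  have hq := fun p => exists_q hS hr n hn T hT p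
  choose q hq1 hq2 using hq
  let v0 : V := Classical.arbitrary V
  have hinj : Function.Injective fun p : Perm (Fin n) => q p v0 := by
    intro p p' hpp
    simp only at hpp
    have hall : ∀ v, q p v = q p' v := by
      intro v
      obtain ⟨f, hf⟩ := hVT v0 v
      rw [← hf, hq1, hq1, hpp]
    have hsw : ∀ i j : Fin n, swap ((p i : ℕ) : ℤ) ((p j : ℕ) : ℤ) =
        swap ((p' i : ℕ) : ℤ) ((p' j : ℕ) : ℤ) := by
      intro i j
      have h1 := hq2 p i j v0
      have h2 := hq2 p' i j v0
      rw [hall, h2, hpp] at h1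
      rw [act_eq_iff hS hr (by have := (hT (p' i) (p' j)).1; omega)
        (by have := (hT (p i) (p j)).1; omega)] at h1
      rw [← (hT _ _).2, ← (hT _ _).2, h1]
    ext i
    by_contra hne
    have hne' : p i ≠ p' i := fun h => hne (by rw [h])
    have key : ∀ j, j ≠ i → p i = p' j := by
      intro j hj
      have h1 := hsw i j
      have h2 : swap ((p i : ℕ) : ℤ) ((p j : ℕ) : ℤ) ((p i : ℕ) : ℤ) = ((p j : ℕ) : ℤ) :=
        swap_apply_left _ _
      have h3 : p j ≠ p i := fun h => hj (p.injective h)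
      rw [h1] at h2
      by_contra h4
      rw [swap_apply_of_ne_of_ne] at h2
      · apply h3
        apply Fin.ext
        have : ((p i : ℕ) : ℤ) = ((p j : ℕ) : ℤ) := h2
        exact_mod_cast this.symm
      · intro h
        apply hne'
        apply Fin.ext
        exact_mod_cast h
      · intro h
        apply h4
        apply Fin.ext
        exact_mod_cast h
    obtain ⟨j1, j2, hj1, hj2, hj12⟩ : ∃ j1 j2 : Fin n, j1 ≠ i ∧ j2 ≠ i ∧ j1 ≠ j2 := by
      have h3 : 2 < Fintype.card (Fin n) := by rw [Fintype.card_fin]; omega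
      obtain ⟨a, b, c, hab, hac, hbc⟩ := Fintype.two_lt_card_iff.mp h3
      by_cases ha : a = i
      · subst ha
        exact ⟨b, c, hab.symm, hac.symm, hbc⟩
      · by_cases hb : b = i
        · subst hb
          exact ⟨a, c, ha, hbc.symm, hac⟩
        · exact ⟨a, b, ha, hb, hab⟩
    exact hj12 (p'.injective ((key j1 hj1).symm.trans (key j2 hj2)))
  have h1 := Nat.card_le_card_of_injective _ hinj
  rwa [Nat.card_eq_fintype_card, Fintype.card_perm, Fintype.card_fin] at h1

theorem nbr_ncard_le (v : V) : (H.neighborSet v).Finite ∧ (H.neighborSet v).ncard ≤ 7 := by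
  obtain ⟨F, hF⟩ := (hS v 1).exists_pIso
  have hv : v ∈ cball H v 0 := self_mem_cball _ _ _
  have hmaps : ∀ q ∈ H.neighborSet v, F q ∈ G0.neighborSet (F v) := by
    intro q hq
    exact hF.adj_of (k := 0) (by omega) hv hq
  have hinj : Set.InjOn F (H.neighborSet v) := by
    intro x hx y hy hxy
    exact hF.inj x y (cball_mono (by omega) (mem_cball_of_adj hv hx))
      (cball_mono (by omega) (mem_cball_of_adj hv hy)) hxy
  have hfin : (G0.neighborSet (F v)).Finite := cay_neighborSet_finite _ _ _ _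
  refine ⟨Set.Finite.of_injOn hmaps hinj hfin, ?_⟩
  exact (Set.ncard_le_ncard_of_injOn F hmaps hinj hfin).trans (cay_degree_le _ _ _ _)

omit hS hr in
theorem cball_ncard_le [Finite V] (hd : ∀ v, (H.neighborSet v).ncard ≤ 7) (v : V) (k : ℕ) :
    (cball H v k).ncard ≤ 8 ^ k := by
  classical
  have := Fintype.ofFinite V
  induction k with
  | zero =>
    have : cball H v 0 = {v} := by
      ext p; rw [mem_cball_zero]; rfl
    rw [this]
    simp
  | succ k ih =>
    have h1 : cball H v (k + 1) ⊆ ((cball H v k).toFinset.biUnion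
        fun p => insert p (H.neighborSet p).toFinset : Finset V) := by
      intro p hp
      rw [Finset.mem_coe, Finset.mem_biUnion]
      rcases mem_cball_succ hp with h | ⟨p', hp', hadj⟩
      · exact ⟨p, by simpa using h, by simp⟩
      · exact ⟨p', by simpa using hp', by simp [hadj]⟩
    refine (Set.ncard_le_ncard h1 (Finset.finite_toSet _)).trans ?_
    rw [Set.ncard_coe_finset]
    have h2 : ∀ p ∈ (cball H v k).toFinset,
        (insert p (H.neighborSet p).toFinset : Finset V).card ≤ 8 := by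
      intro p _
      refine (Finset.card_insert_le _ _).trans ?_
      have := hd p
      rw [Set.ncard_eq_toFinset_card'] at this
      omega
    refine (Finset.card_biUnion_le_card_mul _ _ _ h2).trans ?_
    rw [← Set.ncard_eq_toFinset_card', pow_succ]
    exact Nat.mul_le_mul_right 8 ih

end

/-- **Main inequality.** A finite connected vertex-transitive graph with the same `r`-ball as
`G0` and of diameter at most `d` satisfies `n! ≤ 8 ^ d` for `3 ≤ n ≤ r / 12`. -/
theorem factorial_le_pow {V : Type*} [Finite V] {H : SimpleGraph V} (hconn : H.Connected)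
    (hVT : VertexTransitive H) {r n d : ℕ} (hn3 : 3 ≤ n) (hn : 12 * n ≤ r)
    (hS : SameBall H G0 r) (hd : H.ediam ≤ (d : ℕ∞)) : n.factorial ≤ 8 ^ d := by
  have hne : Nonempty V := hconn.nonempty
  have hr : 1 ≤ r := by omega
  refine (factorial_le_card hS hr hVT n hn3 hn).trans ?_
  have hv : cball H (Classical.arbitrary V) d = Set.univ := by
    apply Set.eq_univ_of_forall
    intro p
    exact (SimpleGraph.edist_le_ediam).trans hd
  have h1 := cball_ncard_le (fun v => (nbr_ncard_le hS hr v).2) (Classical.arbitrary V) d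
  rwa [hv, Set.ncard_univ] at h1

end Pool.Agent.W394.LS
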