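import Pool.Agent.W394.LS.Groups

/-!
The local structure of the graph `G0`.
-/

namespace Pool.Agent.W394.LS

open Equiv

/-- Adjacency table of the seven neighbours of the identity. -/
def tbl : Fin 7 → Fin 7 → Bool := fun i j =>
  ((i, j) ∈ ([(0, 1), (1, 0), (0, 5), (5, 0), (2, 6), (6, 2), (1, 2), (2, 1), (1, 3), (3, 1),
    (2, 4), (4, 2)] : List (Fin 7 × Fin 7)))

theorem tbl_pos : ∀ i j, tbl i j = true → i ≠ j ∧
    ∃ k, gen (ga αZ βZ) (gb αZ βZ) i * gen (ga αZ βZ) (gb αZ βZ) k =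
      gen (ga αZ βZ) (gb αZ βZ) j := by
  have ha := ga_mul αZ βZ αZ_mul
  have ha' : ∀ x, ga αZ βZ * (ga αZ βZ * x) = x := fun x => by rw [← mul_assoc, ha, one_mul]
  have h : ∀ i j, tbl i j = true → i ≠ j := by decide
  intro i j hij
  refine ⟨h i j hij, ?_⟩
  have h2 : ∀ i j, tbl i j = true → (i, j) ∈ ([(0, 1), (1, 0), (0, 5), (5, 0), (2, 6), (6, 2),
    (1, 2), (2, 1), (1, 3), (3, 1), (2, 4), (4, 2)] : List (Fin 7 × Fin 7)) := by decide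
  have h3 := h2 i j hij
  simp only [List.mem_cons, Prod.mk.injEq, List.not_mem_nil, or_false] at h3
  rcases h3 with ⟨rfl, rfl⟩ | ⟨rfl, rfl⟩ | ⟨rfl, rfl⟩ | ⟨rfl, rfl⟩ | ⟨rfl, rfl⟩ | ⟨rfl, rfl⟩ |
    ⟨rfl, rfl⟩ | ⟨rfl, rfl⟩ | ⟨rfl, rfl⟩ | ⟨rfl, rfl⟩ | ⟨rfl, rfl⟩ | ⟨rfl, rfl⟩
  · exact ⟨5, by simp [gen, ha']⟩
  · exact ⟨6, by simp [gen]⟩
  · exact ⟨1, by simp [gen]⟩
  · exact ⟨2, by simp [gen]⟩
  · exact ⟨0, by simp [gen]⟩
  · exact ⟨0, by simp [gen, mul_assoc, ha]⟩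
  · exact ⟨4, by simp [gen]⟩
  · exact ⟨3, by simp [gen]⟩
  · exact ⟨1, by simp [gen]⟩
  · exact ⟨2, by simp [gen]⟩
  · exact ⟨2, by simp [gen]⟩
  · exact ⟨1, by simp [gen]⟩

/-- The test points. -/
def pts : List ℤ := [-3, -2, -1, 0, 1, 2, 3]

theorem fZ_ne : ∀ i j, i ≠ j → ∃ x ∈ pts, fZ i x ≠ fZ j x := by decide

theorem fZ_ne_one : ∀ i, ∃ x ∈ pts, fZ i x ≠ x := by decide

theorem fZ_tbl : ∀ i j, i ≠ j → tbl i j = false → ∀ k, ∃ x ∈ pts, fZ i (fZ k x) ≠ fZ j x := by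
  decide

theorem coe_gen_apply (i : Fin 7) (x : ℤ) :
    ((gen (ga αZ βZ) (gb αZ βZ) i : K) : Perm ℤ) x = fZ i x := by
  rw [coe_gen, gen_apply]

theorem gen_injective : Function.Injective (gen (ga αZ βZ) (gb αZ βZ)) := by
  intro i j hij
  by_contra hne
  obtain ⟨x, _, hx⟩ := fZ_ne i j hne
  apply hx
  rw [← coe_gen_apply, ← coe_gen_apply, hij]

theorem gen_ne_one (i : Fin 7) : gen (ga αZ βZ) (gb αZ βZ) i ≠ 1 := by
  intro h
  obtain ⟨x, _, hx⟩ := fZ_ne_one i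
  apply hx
  rw [← coe_gen_apply, h]
  rfl

theorem G0_adj_one {y : K} : G0.Adj 1 y ↔ ∃ i, y = gen (ga αZ βZ) (gb αZ βZ) i := by
  rw [G0, cay_adj]
  constructor
  · rintro ⟨_, i, hi⟩
    exact ⟨i, by rw [← hi, one_mul]⟩
  · rintro ⟨i, rfl⟩
    exact ⟨(gen_ne_one i).symm, i, one_mul _⟩

theorem G0_adj_gen (i j : Fin 7) : G0.Adj (gen (ga αZ βZ) (gb αZ βZ) i)
    (gen (ga αZ βZ) (gb αZ βZ) j) ↔ tbl i j = true := by
  rw [G0, cay_adj]
  constructor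
  · rintro ⟨hne, k, hk⟩
    by_contra h
    have hij : i ≠ j := fun h => hne (by rw [h])
    obtain ⟨x, _, hx⟩ := fZ_tbl i j hij (by simpa using h) k
    apply hx
    rw [← coe_gen_apply, ← coe_gen_apply, ← coe_gen_apply, ← hk]
    rfl
  · intro h
    obtain ⟨h1, h2⟩ := tbl_pos i j h
    exact ⟨fun h => h1 (gen_injective h), h2⟩

theorem G0_cn (i : Fin 7) : cn G0 1 (gen (ga αZ βZ) (gb αZ βZ) i) =
    (gen (ga αZ βZ) (gb αZ βZ)) '' ((Finset.univ.filter fun j => tbl i j = true : Finset (Fin 7)) :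
      Set (Fin 7)) := by
  ext y
  constructor
  · rintro ⟨h1, h2⟩
    obtain ⟨j, rfl⟩ := G0_adj_one.mp h1
    exact ⟨j, by simpa using (G0_adj_gen i j).mp h2, rfl⟩
  · rintro ⟨j, hj, rfl⟩
    exact ⟨G0_adj_one.mpr ⟨j, rfl⟩, (G0_adj_gen i j).mpr (by simpa using hj)⟩

theorem G0_cn_ncard (i : Fin 7) : (cn G0 1 (gen (ga αZ βZ) (gb αZ βZ) i)).ncard =
    (Finset.univ.filter fun j => tbl i j = true : Finset (Fin 7)).card := by
  rw [G0_cn, Set.ncard_image_of_injective _ gen_injective, Set.ncard_coe_finset]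

theorem tblA : ∀ i, (Finset.univ.filter fun j => tbl i j = true : Finset (Fin 7)).card = 2 ↔
    i = 0 := by decide

theorem tblB : ∀ i, (Finset.univ.filter fun j => tbl i j = true : Finset (Fin 7)).card = 3 ↔
    i = 1 ∨ i = 2 := by decide

theorem G0_isA_one {y : K} : IsA G0 1 y ↔ y = gen (ga αZ βZ) (gb αZ βZ) 0 := by
  constructor
  · rintro ⟨h1, h2⟩
    obtain ⟨i, rfl⟩ := G0_adj_one.mp h1
    rw [G0_cn_ncard, tblA] at h2
    rw [h2]
  · rintro rfl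
    exact ⟨G0_adj_one.mpr ⟨0, rfl⟩, by rw [G0_cn_ncard, tblA]⟩

theorem G0_isB_one {y : K} : IsB G0 1 y ↔ y = gen (ga αZ βZ) (gb αZ βZ) 1 := by
  constructor
  · rintro ⟨h1, h2, w, hw, hyw⟩
    obtain ⟨i, rfl⟩ := G0_adj_one.mp h1
    rw [G0_cn_ncard, tblB] at h2
    rw [G0_isA_one] at hw
    subst hw
    rcases h2 with rfl | rfl
    · rfl
    · rw [G0_adj_gen] at hyw
      exact absurd hyw (by decide)
  · rintro rfl
    refine ⟨G0_adj_one.mpr ⟨1, rfl⟩, by rw [G0_cn_ncard, tblB]; simp,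
      gen (ga αZ βZ) (gb αZ βZ) 0, G0_isA_one.mpr rfl, ?_⟩
    rw [G0_adj_gen]
    decide

theorem G0_isC_one {y : K} : IsC G0 1 y ↔ y = gen (ga αZ βZ) (gb αZ βZ) 2 := by
  constructor
  · rintro ⟨h1, h2, hw⟩
    obtain ⟨i, rfl⟩ := G0_adj_one.mp h1
    rw [G0_cn_ncard, tblB] at h2
    rcases h2 with rfl | rfl
    · exact absurd ((G0_adj_gen 1 0).mpr (by decide)) (hw _ (G0_isA_one.mpr rfl))
    · rfl
  · rintro rfl
    refine ⟨G0_adj_one.mpr ⟨2, rfl⟩, by rw [G0_cn_ncard, tblB]; simp, ?_⟩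
    intro w hw
    rw [G0_isA_one] at hw
    subst hw
    rw [G0_adj_gen]
    decide

/-- The three relations as one family. -/
def Rel {V : Type*} (G : SimpleGraph V) : Fin 3 → V → V → Prop :=
  ![IsA G, IsB G, IsC G]

/-- The three letters. -/
def g3 : Fin 3 → K := ![ga αZ βZ, gb αZ βZ, (gb αZ βZ)⁻¹]

theorem rel_map {V : Type*} {G : SimpleGraph V} (f : G ≃g G) (s : Fin 3) {v u : V}
    (h : Rel G s v u) : Rel G s (f v) (f u) := by
  fin_cases s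
  · exact isA_map f h
  · exact isB_map f h
  · exact isC_map f h

theorem rel_adj {V : Type*} {G : SimpleGraph V} (s : Fin 3) {v u : V}
    (h : Rel G s v u) : G.Adj v u := by
  fin_cases s
  · exact h.1
  · exact h.1
  · exact h.1

theorem PIso.rel_iff {V W : Type*} {G : SimpleGraph V} {H : SimpleGraph W} {v : V} {w : W}
    {r : ℕ} {F : V → W} (hF : PIso G v H w r F) (s : Fin 3) {k : ℕ} (hk : k + 1 ≤ r) {p : V}
    (hp : p ∈ cball G v k) {q : V} (hq : G.Adj p q) : Rel G s p q ↔ Rel H s (F p) (F q) := by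
  fin_cases s
  · exact hF.isA_iff hk hp hq
  · exact hF.isB_iff hk hp hq
  · exact hF.isC_iff hk hp hq

theorem G0_rel_one (s : Fin 3) {y : K} : Rel G0 s 1 y ↔ y = g3 s := by
  fin_cases s
  · exact G0_isA_one
  · exact G0_isB_one
  · exact G0_isC_one

theorem G0_rel (s : Fin 3) {g y : K} : Rel G0 s g y ↔ y = g * g3 s := by
  constructor
  · intro h
    have h1 := rel_map (cayLeft (ga αZ βZ) (gb αZ βZ) (ga_mul _ _ αZ_mul) g⁻¹ : G0 ≃g G0) s h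
    have h2 : Rel G0 s (g⁻¹ * g) (g⁻¹ * y) := h1
    rw [inv_mul_cancel, G0_rel_one] at h2
    rw [← h2, mul_inv_cancel_left]
  · rintro rfl
    have h0 : Rel G0 s 1 (g3 s) := (G0_rel_one s).mpr rfl
    have h1 := rel_map (cayLeft (ga αZ βZ) (gb αZ βZ) (ga_mul _ _ αZ_mul) g : G0 ≃g G0) s h0
    have h2 : Rel G0 s (g * 1) (g * g3 s) := h1
    rwa [mul_one] at h2

end Pool.Agent.W394.LS
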