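import Pool.Agent.W394.LS.Defs

/-!
Transfer of local first-order relations along isomorphisms of balls.
-/

namespace Pool.Agent.W394.LS

variable {V W : Type*} {G : SimpleGraph V} {H : SimpleGraph W}

theorem mem_cball_zero {v p : V} : p ∈ cball G v 0 ↔ p = v := by
  simp only [cball, Set.mem_ofPred_eq, Nat.cast_zero, nonpos_iff_eq_zero]
  rw [SimpleGraph.edist_eq_zero_iff]
  exact eq_comm

theorem cball_mono {v : V} {k l : ℕ} (h : k ≤ l) : cball G v k ⊆ cball G v l := by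
  intro p hp
  simp only [cball, Set.mem_ofPred_eq] at *
  exact hp.trans (by exact_mod_cast h)

theorem mem_cball_of_adj {v p q : V} {k : ℕ} (hp : p ∈ cball G v k) (h : G.Adj p q) :
    q ∈ cball G v (k + 1) := by
  simp only [cball, Set.mem_ofPred_eq] at *
  calc G.edist v q ≤ G.edist v p + G.edist p q := SimpleGraph.edist_triangle
    _ ≤ (k : ℕ∞) + 1 := by
        gcongr
        rw [SimpleGraph.edist_eq_one_iff_adj.mpr h]
    _ = ((k + 1 : ℕ) : ℕ∞) := by push_cast; rfl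

theorem mem_cball_succ {v p : V} {k : ℕ} (hp : p ∈ cball G v (k + 1)) :
    p ∈ cball G v k ∨ ∃ p' ∈ cball G v k, G.Adj p' p := by
  simp only [cball, Set.mem_ofPred_eq] at *
  rw [SimpleGraph.edist_comm] at hp
  have hne : G.edist p v ≠ ⊤ := by
    intro h
    rw [h] at hp
    exact absurd hp (by simp)
  obtain ⟨w, hw⟩ := SimpleGraph.exists_walk_of_edist_ne_top hne
  cases w with
  | nil =>
    left
    simp
  | @cons _ p' _ hadj w' =>
    right
    refine ⟨p', ?_, hadj.symm⟩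
    rw [SimpleGraph.edist_comm]
    have h1 : G.edist p' v ≤ (w'.length : ℕ∞) := SimpleGraph.edist_le w'
    refine h1.trans ?_
    rw [← hw, SimpleGraph.Walk.length_cons] at hp
    have : w'.length + 1 ≤ k + 1 := by exact_mod_cast hp
    exact_mod_cast Nat.le_of_succ_le_succ this

/-- Unpacked form of a rooted isomorphism of balls. -/
structure PIso (G : SimpleGraph V) (v : V) (H : SimpleGraph W) (w : W) (r : ℕ)
    (F : V → W) : Prop where
  root : F v = w
  inj : ∀ p q, p ∈ cball G v r → q ∈ cball G v r → F p = F q → p = q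
  adj : ∀ p q, p ∈ cball G v r → q ∈ cball G v r → (G.Adj p q ↔ H.Adj (F p) (F q))
  maps : ∀ k ≤ r, ∀ p ∈ cball G v k, F p ∈ cball H w k
  surj : ∀ y ∈ cball H w r, ∃ p ∈ cball G v r, F p = y

theorem BallIso.exists_pIso {v : V} {w : W} {r : ℕ} (h : BallIso G v H w r) :
    ∃ F : V → W, PIso G v H w r F := by
  classical
  obtain ⟨f, hf⟩ := h
  let F : V → W := fun p => if hp : p ∈ cball G v r then (f ⟨p, hp⟩ : W) else w
  have hF : ∀ p (hp : p ∈ cball G v r), F p = (f ⟨p, hp⟩ : W) := fun p hp => by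
    simp only [F, dif_pos hp]
  have hroot : F v = w := by
    rw [hF v (self_mem_cball G v r), hf]
  have hadj : ∀ p q, p ∈ cball G v r → q ∈ cball G v r →
      (G.Adj p q ↔ H.Adj (F p) (F q)) := by
    intro p q hp hq
    rw [hF p hp, hF q hq]
    have := f.map_rel_iff (a := ⟨p, hp⟩) (b := ⟨q, hq⟩)
    simp only [SimpleGraph.induce, SimpleGraph.comap_adj, Function.Embedding.subtype_apply] at this
    exact this.symm
  refine ⟨F, hroot, ?_, hadj, ?_, ?_⟩
  · intro p q hp hq h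
    rw [hF p hp, hF q hq] at h
    have := f.injective (Subtype.ext h)
    exact congrArg Subtype.val this
  · intro k
    induction k with
    | zero =>
      intro _ p hp
      rw [mem_cball_zero] at hp
      subst hp
      rw [hroot]
      exact self_mem_cball _ _ _
    | succ k ih =>
      intro hk p hp
      rcases mem_cball_succ hp with h1 | ⟨p', hp', hadj'⟩
      · exact cball_mono (Nat.le_succ k) (ih (by omega) p h1)
      · refine mem_cball_of_adj (ih (by omega) p' hp') ?_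
        exact (hadj p' p (cball_mono (by omega) hp') (cball_mono hk hp)).mp hadj'
  · intro y hy
    obtain ⟨⟨p, hp⟩, hpy⟩ := f.surjective ⟨y, hy⟩
    refine ⟨p, hp, ?_⟩
    rw [hF p hp, hpy]

/-- Common neighbours. -/
def cn (G : SimpleGraph V) (v u : V) : Set V := {w | G.Adj v w ∧ G.Adj u w}

/-- `u` is the neighbour of type `a` of `v`. -/
def IsA (G : SimpleGraph V) (v u : V) : Prop := G.Adj v u ∧ (cn G v u).ncard = 2

/-- `u` is the neighbour of type `b` of `v`. -/
def IsB (G : SimpleGraph V) (v u : V) : Prop :=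
  G.Adj v u ∧ (cn G v u).ncard = 3 ∧ ∃ w, IsA G v w ∧ G.Adj u w

/-- `u` is the neighbour of type `b⁻¹` of `v`. -/
def IsC (G : SimpleGraph V) (v u : V) : Prop :=
  G.Adj v u ∧ (cn G v u).ncard = 3 ∧ ∀ w, IsA G v w → ¬ G.Adj u w

section

variable {v : V} {w : W} {r : ℕ} {F : V → W} (hF : PIso G v H w r F)

include hF

theorem PIso.nbr {k : ℕ} (hk : k + 1 ≤ r) {p : V} (hp : p ∈ cball G v k) {y : W}
    (hy : H.Adj (F p) y) : ∃ q, G.Adj p q ∧ F q = y := by
  have h1 : F p ∈ cball H w k := hF.maps k (by omega) p hp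
  have h2 : y ∈ cball H w r := cball_mono hk (mem_cball_of_adj h1 hy)
  obtain ⟨q, hq, rfl⟩ := hF.surj y h2
  exact ⟨q, (hF.adj p q (cball_mono (by omega) hp) hq).mpr hy, rfl⟩

theorem PIso.adj_of {k : ℕ} (hk : k + 1 ≤ r) {p : V} (hp : p ∈ cball G v k) {q : V}
    (hq : G.Adj p q) : H.Adj (F p) (F q) :=
  (hF.adj p q (cball_mono (by omega) hp) (cball_mono hk (mem_cball_of_adj hp hq))).mp hq

theorem PIso.cn_eq {k : ℕ} (hk : k + 1 ≤ r) {p : V} (hp : p ∈ cball G v k) {q : V}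
    (hq : G.Adj p q) : F '' (cn G p q) = cn H (F p) (F q) := by
  have hqb : q ∈ cball G v r := cball_mono hk (mem_cball_of_adj hp hq)
  ext y
  constructor
  · rintro ⟨z, ⟨h1, h2⟩, rfl⟩
    have hzb : z ∈ cball G v r := cball_mono hk (mem_cball_of_adj hp h1)
    exact ⟨hF.adj_of hk hp h1, (hF.adj q z hqb hzb).mp h2⟩
  · rintro ⟨h1, h2⟩
    obtain ⟨z, hz, rfl⟩ := hF.nbr hk hp h1
    have hzb : z ∈ cball G v r := cball_mono hk (mem_cball_of_adj hp hz)
    exact ⟨z, ⟨hz, (hF.adj q z hqb hzb).mpr h2⟩, rfl⟩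

theorem PIso.cn_ncard {k : ℕ} (hk : k + 1 ≤ r) {p : V} (hp : p ∈ cball G v k) {q : V}
    (hq : G.Adj p q) : (cn H (F p) (F q)).ncard = (cn G p q).ncard := by
  rw [← hF.cn_eq hk hp hq]
  apply Set.InjOn.ncard_image
  intro x hx y hy hxy
  exact hF.inj x y (cball_mono hk (mem_cball_of_adj hp hx.1))
    (cball_mono hk (mem_cball_of_adj hp hy.1)) hxy

theorem PIso.isA_iff {k : ℕ} (hk : k + 1 ≤ r) {p : V} (hp : p ∈ cball G v k) {q : V}
    (hq : G.Adj p q) : IsA G p q ↔ IsA H (F p) (F q) := by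
  unfold IsA
  rw [hF.cn_ncard hk hp hq]
  exact and_congr_left fun _ => iff_of_true hq (hF.adj_of hk hp hq)

theorem PIso.isB_iff {k : ℕ} (hk : k + 1 ≤ r) {p : V} (hp : p ∈ cball G v k) {q : V}
    (hq : G.Adj p q) : IsB G p q ↔ IsB H (F p) (F q) := by
  unfold IsB
  rw [hF.cn_ncard hk hp hq]
  have hqb : q ∈ cball G v r := cball_mono hk (mem_cball_of_adj hp hq)
  constructor
  · rintro ⟨_, h2, z, hz, hqz⟩
    exact ⟨hF.adj_of hk hp hq, h2, F z, (hF.isA_iff hk hp hz.1).mp hz,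
      (hF.adj q z hqb (cball_mono hk (mem_cball_of_adj hp hz.1))).mp hqz⟩
  · rintro ⟨_, h2, y, hy, hqy⟩
    obtain ⟨z, hz, rfl⟩ := hF.nbr hk hp hy.1
    exact ⟨hq, h2, z, (hF.isA_iff hk hp hz).mpr hy,
      (hF.adj q z hqb (cball_mono hk (mem_cball_of_adj hp hz))).mpr hqy⟩

theorem PIso.isC_iff {k : ℕ} (hk : k + 1 ≤ r) {p : V} (hp : p ∈ cball G v k) {q : V}
    (hq : G.Adj p q) : IsC G p q ↔ IsC H (F p) (F q) := by
  unfold IsC
  rw [hF.cn_ncard hk hp hq]
  have hqb : q ∈ cball G v r := cball_mono hk (mem_cball_of_adj hp hq)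
  constructor
  · rintro ⟨_, h2, hz⟩
    refine ⟨hF.adj_of hk hp hq, h2, ?_⟩
    intro y hy hqy
    obtain ⟨z, hz', rfl⟩ := hF.nbr hk hp hy.1
    exact hz z ((hF.isA_iff hk hp hz').mpr hy)
      ((hF.adj q z hqb (cball_mono hk (mem_cball_of_adj hp hz'))).mpr hqy)
  · rintro ⟨_, h2, hz⟩
    refine ⟨hq, h2, ?_⟩
    intro z hz' hqz
    exact hz (F z) ((hF.isA_iff hk hp hz'.1).mp hz')
      ((hF.adj q z hqb (cball_mono hk (mem_cball_of_adj hp hz'.1))).mp hqz)

end

/-- Graph automorphisms preserve the three relations. -/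
theorem cn_map (f : G ≃g G) (v u : V) : f '' (cn G v u) = cn G (f v) (f u) := by
  ext y
  constructor
  · rintro ⟨z, ⟨h1, h2⟩, rfl⟩
    exact ⟨f.map_rel_iff.mpr h1, f.map_rel_iff.mpr h2⟩
  · rintro ⟨h1, h2⟩
    refine ⟨f.symm y, ⟨?_, ?_⟩, by simp⟩
    · rw [← f.map_rel_iff]; simpa using h1
    · rw [← f.map_rel_iff]; simpa using h2

theorem isA_map (f : G ≃g G) {v u : V} (h : IsA G v u) : IsA G (f v) (f u) := by
  refine ⟨f.map_rel_iff.mpr h.1, ?_⟩
  rw [← cn_map, Set.ncard_image_of_injective _ f.injective]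
  exact h.2

theorem isB_map (f : G ≃g G) {v u : V} (h : IsB G v u) : IsB G (f v) (f u) := by
  refine ⟨f.map_rel_iff.mpr h.1, ?_, ?_⟩
  · rw [← cn_map, Set.ncard_image_of_injective _ f.injective]
    exact h.2.1
  · obtain ⟨z, hz, hu⟩ := h.2.2
    exact ⟨f z, isA_map f hz, f.map_rel_iff.mpr hu⟩

theorem isC_map (f : G ≃g G) {v u : V} (h : IsC G v u) : IsC G (f v) (f u) := by
  refine ⟨f.map_rel_iff.mpr h.1, ?_, ?_⟩
  · rw [← cn_map, Set.ncard_image_of_injective _ f.injective]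
    exact h.2.1
  · intro w hw hu
    have h1 : IsA G v (f.symm w) := by
      have := isA_map f.symm hw
      simpa using this
    refine h.2.2 _ h1 ?_
    have := f.symm.map_rel_iff.mpr hu
    simpa using this

end Pool.Agent.W394.LS
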